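import Pool.Agent.helper57.LQ.SpecC

set_option autoImplicit false

open Finset PowerSeries

noncomputable section

namespace Pool.Agent.LQ

theorem LMQ_mem {N : ℕ} {g : FF} {i l : ℕ} (h : i < l) (hN : i.Coprime N) : g ^ i ∈ VV N g l :=
  Submodule.subset_span ⟨i, h, hN, rfl⟩

theorem LMQ_pow (hALG : ALG_stmt) {N : ℕ} (hN : 1 < N) {A : Module.End (ZMod 2) FF} (hA : A ∈ TT N)
    (k : ℕ) : A ^ k ∈ TT N := by
  induction k with
  | zero => rw [pow_zero]; exact (hALG N hN).1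
  | succ k ih => rw [pow_succ]; exact ((hALG N hN).2 _ ih _ hA).1

theorem LMQ_T1 (f : FF) : T 1 f = f := by
  ext m
  rw [coeff_T]
  simp

theorem LMQ_c1 (n : ℕ) (f : FF) : coeff 1 (T n f) = coeff n f := by
  rw [coeff_T]
  simp

theorem LMQ_c6 {q : ℕ} (h : q % 24 = 7) : q.Coprime 6 := by
  have h2 : Nat.Coprime q 2 := by
    rw [Nat.coprime_two_right, Nat.odd_iff]; omega
  have h3 : Nat.Coprime q 3 := by
    rw [Nat.coprime_comm, Nat.Prime.coprime_iff_not_dvd Nat.prime_three]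
    intro h3
    omega
  exact Nat.Coprime.mul_right h2 h3

theorem LMQ_claim (hHRC : HRC_stmt) (hG : Gen 6 tt) (hALG : ALG_stmt) (hAF3 : AF3_stmt)
    (hSTR : STR_stmt) (hOTH : OTH_stmt) (K : ℕ) (S : Finset ℕ) :
    (∀ q ∈ S, q.Prime ∧ q % 24 = 7) → ∀ i : ℕ, i < K → i.Coprime 6 →
      ∃ h ∈ VV 6 tt i, T (∏ q ∈ S, q) (tt ^ i) = (T 7 ^ S.card) (tt ^ i + h) := by
  classical
  induction S using Finset.induction_on with
  | empty =>
    intro _ i _ _
    refine ⟨0, Submodule.zero_mem _, ?_⟩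
    rw [Finset.prod_empty, Finset.card_empty, pow_zero, Module.End.one_apply, add_zero, LMQ_T1]
  | insert q S hqS ih =>
    intro hS i hi hi6
    obtain ⟨h, hh, hT⟩ := ih (fun p hp => hS p (Finset.mem_insert_of_mem hp)) i hi hi6
    obtain ⟨hq, hq7⟩ := hS q (Finset.mem_insert_self q S)
    obtain ⟨ρ, hρ, hρ1, hρT⟩ := hOTH q hq hq7 K
    have hpos : 0 < ∏ p ∈ S, p := Finset.prod_pos fun p hp => (hS p (Finset.mem_insert_of_mem hp)).1.pos
    have hnd : ¬ q ∣ ∏ p ∈ S, p := by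
      rw [Prime.dvd_finset_prod_iff hq.prime]
      rintro ⟨p, hp, hqp⟩
      have := (Nat.prime_dvd_prime_iff_eq hq (hS p (Finset.mem_insert_of_mem hp)).1).1 hqp
      rw [this] at hqS
      exact hqS hp
    have hR := hHRC q (∏ p ∈ S, p) hq hpos
    rw [if_neg hnd, add_zero] at hR
    have hTq : T q ∈ TT 6 := Submodule.subset_span ⟨q, LMQ_c6 hq7, rfl⟩
    have hT7 : T 7 ∈ TT 6 := Submodule.subset_span ⟨7, by norm_num, rfl⟩
    have hT7k : T 7 ^ S.card ∈ TT 6 := LMQ_pow hALG (by norm_num) hT7 _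
    have hf : tt ^ i + h ∈ VV 6 tt K :=
      Submodule.add_mem _ (LMQ_mem hi hi6) (VV_mono 6 tt hi.le hh)
    refine ⟨h + ρ (tt ^ i + h), ?_, ?_⟩
    · refine Submodule.add_mem _ hh ?_
      rw [map_add]
      exact Submodule.add_mem _ (hSTR ρ hρ hρ1 i hi6) (hAF3.2 6 tt hG ρ hρ i h hh)
    · rw [Finset.prod_insert hqS, ← hR, Module.End.mul_apply, hT, ← Module.End.mul_apply,
        ((hALG 6 (by norm_num)).2 _ hTq _ hT7k).2, Module.End.mul_apply, hρT _ hf,
        Finset.card_insert_of_notMem hqS, pow_succ, Module.End.mul_apply, add_assoc]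

theorem LMQ (hGN6 : GN6_stmt) (hHRC : HRC_stmt) (hALG : ALG_stmt) (hAF3 : AF3_stmt)
    (hSTR : STR_stmt) (hT7B : T7B_stmt) (hOTH : OTH_stmt) : LMQ_stmt := by
  intro S hS
  have hG : Gen 6 tt := hGN6
  have hcl := LMQ_claim hHRC hG hALG hAF3 hSTR hOTH (2 + 6 * sd S.card) S hS
  obtain ⟨hk, hc⟩ := hT7B S.card
  constructor
  · intro i hi hi6
    obtain ⟨h, hh, hT⟩ := hcl i (by omega) hi6
    rw [← LMQ_c1, hT, hk _ (Submodule.add_mem _ (LMQ_mem hi hi6) (VV_mono 6 tt hi.le hh)), map_zero]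
  · have hi6 : (1 + 6 * sd S.card).Coprime 6 := by
      rw [Nat.coprime_add_mul_left_left]
      norm_num
    obtain ⟨h, hh, hT⟩ := hcl (1 + 6 * sd S.card) (by omega) hi6
    rw [← LMQ_c1, hT, map_add, map_add, hk h hh, map_zero, add_zero, hc]

end Pool.Agent.LQ
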