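import Pool.Agent.helper57.LQ.SpecC

set_option autoImplicit false

open Finset PowerSeries

noncomputable section

namespace Pool.Agent.LQ

theorem STR_mem {N : ℕ} {g : FF} {i l : ℕ} (h : i < l) (hN : i.Coprime N) : g ^ i ∈ VV N g l :=
  Submodule.subset_span ⟨i, h, hN, rfl⟩

theorem STR_pow (hALG : ALG_stmt) {N : ℕ} (hN : 1 < N) {A : Module.End (ZMod 2) FF} (hA : A ∈ TT N)
    (k : ℕ) : A ^ k ∈ TT N := by
  induction k with
  | zero => rw [pow_zero]; exact (hALG N hN).1
  | succ k ih => rw [pow_succ]; exact ((hALG N hN).2 _ ih _ hA).1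

theorem STR (hGN6 : GN6_stmt) (hALG : ALG_stmt) (hAF3 : AF3_stmt) (hFUN : FUN_stmt)
    (hSQR : SQR_stmt) (hSP6 : SP6_stmt) (hPS1 : PS1_stmt) : STR_stmt := by
  intro A hA h1 i hi
  have hG : Gen 6 tt := hGN6
  obtain ⟨F1, -, -, F4, F5⟩ := hFUN 6 tt hG
  -- A tt = 0
  have htt2 : tt ∈ VV 6 tt 2 := by
    have := STR_mem (N := 6) (g := tt) (i := 1) (l := 2) (by norm_num) (by norm_num)
    rwa [pow_one] at this
  have hAtt : A tt = 0 := by
    refine F1 2 (A tt) (hAF3.2 6 tt hG A hA 2 tt htt2) ?_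
    intro n hn hn6
    have hn1 : n = 1 := by
      interval_cases n
      · norm_num at hn6
      · rfl
    rw [hn1]; exact h1
  -- A kills VV 2
  have hA2 : ∀ f ∈ VV 6 tt 2, A f = 0 := by
    intro f hf
    induction hf using Submodule.span_induction with
    | mem x hx =>
      obtain ⟨j, hj, hj6, rfl⟩ := hx
      have hj1 : j = 1 := by
        interval_cases j
        · norm_num at hj6
        · rfl
      rw [hj1, pow_one]; exact hAtt
    | zero => rw [map_zero]
    | add x y _ _ hx hy => rw [map_add, hx, hy, add_zero]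
    | smul c x _ hx => rw [map_smul, hx, smul_zero]
  have hPsi25 : ∀ f ∈ VV 6 tt 25, Psi 6 f ∈ VV 6 tt 2 := by
    intro f hf
    induction hf using Submodule.span_induction with
    | mem x hx =>
      obtain ⟨j, hj, hj6, rfl⟩ := hx
      by_cases hj1 : j % 24 = 1
      · have : j = 1 := by omega
        rw [this, pow_one, hPS1.2.1]
        exact htt2
      · rw [hPS1.1 j hj1]
        exact Submodule.zero_mem _
    | zero => rw [map_zero]; exact Submodule.zero_mem _
    | add x y _ _ hx hy => rw [map_add]; exact Submodule.add_mem _ hx hy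
    | smul c x _ hx => rw [map_smul]; exact Submodule.smul_mem _ _ hx
  have hkill : ∀ r : ℕ, ∀ f ∈ VV 6 tt (1 + 6 * 4 ^ (r + 1)), (A ^ (2 ^ (r + 1))) f = 0 := by
    intro r
    induction r with
    | zero =>
      intro f hf
      have e1 : A ^ (2 ^ (0 + 1)) = A * A := by norm_num [pow_two]
      rw [e1, Module.End.mul_apply]
      exact hSQR 6 tt hG 25 2 hPsi25 A hA hA2 f hf
    | succ r ih =>
      intro f hf
      have e1 : A ^ (2 ^ (r + 1 + 1)) = A ^ (2 ^ (r + 1)) * A ^ (2 ^ (r + 1)) := by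
        rw [← pow_add]
        congr 1
        ring
      rw [e1, Module.End.mul_apply]
      have hB : A ^ (2 ^ (r + 1)) ∈ TT 6 := STR_pow hALG (by norm_num) hA _
      refine hSQR 6 tt hG (1 + 6 * 4 ^ (r + 1 + 1)) (1 + 6 * 4 ^ (r + 1)) ?_ _ hB ih f hf
      intro f' hf'
      refine hSP6 (4 ^ (r + 1)) f' ?_
      have e2 : 1 + 4 * (6 * 4 ^ (r + 1)) = 1 + 6 * 4 ^ (r + 1 + 1) := by ring
      rw [e2]; exact hf'
  rcases F5 i (A (tt ^ i)) (hAF3.2 6 tt hG A hA (i + 1) _ (STR_mem (Nat.lt_succ_self i) hi)) with h | ⟨-, h⟩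
  · exact h
  · exfalso
    have hk : ∀ k : ℕ, (A ^ k) (tt ^ i) + tt ^ i ∈ VV 6 tt i := by
      intro k
      induction k with
      | zero =>
        rw [pow_zero, Module.End.one_apply, add_self_FF]
        exact Submodule.zero_mem _
      | succ k ih =>
        have e1 : (A ^ (k + 1)) (tt ^ i) + tt ^ i =
            A ((A ^ k) (tt ^ i) + tt ^ i) + (A (tt ^ i) + tt ^ i) := by
          rw [map_add, pow_succ', Module.End.mul_apply]
          have e2 : A ((A ^ k) (tt ^ i)) + A (tt ^ i) + (A (tt ^ i) + tt ^ i) =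
              A ((A ^ k) (tt ^ i)) + tt ^ i + (A (tt ^ i) + A (tt ^ i)) := by ring
          rw [e2, add_self_FF, add_zero]
        rw [e1]
        exact Submodule.add_mem _ (hAF3.2 6 tt hG A hA i _ ih) h
    have hlt : i < 1 + 6 * 4 ^ (i + 1) := by
      have : i + 1 < 4 ^ (i + 1) := Nat.lt_pow_self (by norm_num)
      omega
    have h3 := hk (2 ^ (i + 1))
    rw [hkill i (tt ^ i) (STR_mem hlt hi), zero_add] at h3
    exact F4 i hi h3

end Pool.Agent.LQ
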