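import Pool.Agent.helper57.LQ.SpecB

set_option autoImplicit false

open Finset PowerSeries

noncomputable section

namespace Pool.Agent.LQ

theorem UID_two : (2 : FF) = 0 := by
  have h := add_self_FF 1
  rw [one_add_one_eq_two] at h
  exact h

theorem UID_sum (hTGR : TGR_stmt) (hEXP : EXP_stmt) : tt = uu + uu ^ 4 := by
  classical
  have h4 : uu ^ 4 = ex 4 uu := by
    have := hEXP.2.2.1 2 uu
    norm_num at this
    exact this
  rw [h4]
  ext n
  rw [map_add, hTGR.1 n]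
  have hu : coeff n uu = if ∃ m : ℕ, ¬ 3 ∣ m ∧ n = m ^ 2 then 1 else 0 := by
    unfold uu
    rw [coeff_mk]
  have he : coeff n (ex 4 uu) = if 4 ∣ n then (if ∃ m : ℕ, ¬ 3 ∣ m ∧ n / 4 = m ^ 2 then 1 else 0) else 0 := by
    unfold ex uu
    rw [coeff_mk, coeff_mk]
  rw [hu, he]
  by_cases h1 : ∃ m : ℕ, ¬ 3 ∣ m ∧ n = m ^ 2
  · obtain ⟨m, hm3, hm⟩ := h1
    have h1' : ∃ m : ℕ, ¬ 3 ∣ m ∧ n = m ^ 2 := ⟨m, hm3, hm⟩
    rw [if_pos h1']
    rcases Nat.even_or_odd m with hev | hodd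
    · obtain ⟨k, hk⟩ := hev
      have hk2 : n = 4 * k ^ 2 := by rw [hm, hk]; ring
      have h4n : 4 ∣ n := ⟨k ^ 2, hk2⟩
      have h2 : ∃ m : ℕ, ¬ 3 ∣ m ∧ n / 4 = m ^ 2 := by
        refine ⟨k, fun h3 => hm3 ?_, ?_⟩
        · rw [hk]; exact dvd_add h3 h3
        · rw [hk2]; omega
      rw [if_pos h4n, if_pos h2]
      have h3 : ¬ ∃ u : ℕ, u.Coprime 6 ∧ n = u ^ 2 := by
        rintro ⟨u, hu6, hun⟩
        have hum : u = m := by
          have : u ^ 2 = m ^ 2 := by rw [← hun, hm]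
          exact Nat.pow_left_injective (by norm_num : 2 ≠ 0) this
        rw [hum] at hu6
        have h5 : Nat.Coprime m 2 := Nat.Coprime.coprime_dvd_right (by norm_num) hu6
        rw [Nat.coprime_two_right] at h5
        rw [Nat.odd_iff] at h5
        omega
      rw [if_neg h3]
      decide
    · have h4n : ¬ 4 ∣ n := by
        intro h4n
        have h5 : Odd n := by rw [hm]; exact hodd.pow
        rw [Nat.odd_iff] at h5
        omega
      rw [if_neg h4n]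
      have h3 : ∃ u : ℕ, u.Coprime 6 ∧ n = u ^ 2 := by
        refine ⟨m, ?_, hm⟩
        have e2 : Nat.Coprime m 2 := by rw [Nat.coprime_two_right]; exact hodd
        have e3 : Nat.Coprime m 3 := by
          rw [Nat.coprime_comm]
          exact (Nat.Prime.coprime_iff_not_dvd Nat.prime_three).2 hm3
        exact Nat.Coprime.mul_right e2 e3
      rw [if_pos h3, add_zero]
  · rw [if_neg h1]
    have h3 : ¬ ∃ u : ℕ, u.Coprime 6 ∧ n = u ^ 2 := by
      rintro ⟨u, hu6, hun⟩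
      refine h1 ⟨u, fun h3 => ?_, hun⟩
      have h5 : Nat.Coprime u 3 := Nat.Coprime.coprime_dvd_right (by norm_num) hu6
      have h6 := Nat.dvd_gcd h3 (dvd_refl 3)
      rw [h5] at h6
      omega
    rw [if_neg h3]
    by_cases h4n : 4 ∣ n
    · rw [if_pos h4n]
      have h2 : ¬ ∃ m : ℕ, ¬ 3 ∣ m ∧ n / 4 = m ^ 2 := by
        rintro ⟨m, hm3, hm⟩
        refine h1 ⟨2 * m, fun h3 => ?_, ?_⟩
        · exact hm3 ((Nat.Coprime.dvd_mul_left (by norm_num)).1 h3)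
        · obtain ⟨k, hk⟩ := h4n
          rw [hk] at hm ⊢
          have : 4 * k / 4 = k := by omega
          rw [this] at hm
          rw [hm]; ring
      rw [if_neg h2, add_zero]
    · rw [if_neg h4n, add_zero]

theorem UID (hTGR : TGR_stmt) (hME3 : ME3_stmt) (hEXP : EXP_stmt) : UID_stmt := by
  classical
  have h2 := UID_two
  have hsum := UID_sum hTGR hEXP
  obtain ⟨r, hr⟩ : ∃ r, r = ex 9 DD := ⟨_, rfl⟩
  obtain ⟨hD, hM⟩ := hME3
  rw [hTGR.2.2.1] at hM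
  rw [← hr] at hD
  have hr4 : r ^ 4 + tt ^ 12 = tt ^ 3 * r := by
    rw [hD] at hM
    linear_combination hM - (2 * tt ^ 3 * r + 3 * tt ^ 2 * r ^ 2 + 2 * tt * r ^ 3) * h2
  have h8 : tt ^ 8 = uu ^ 8 + uu ^ 32 := by
    have e8 : ∀ a b : FF, (a + b) ^ 8 = a ^ 8 + b ^ 8 := by
      intro a b
      have e2 : ∀ a b : FF, (a + b) ^ 2 = a ^ 2 + b ^ 2 := by
        intro a b
        linear_combination (a * b) * h2
      have e1 : (a + b) ^ 8 = (((a + b) ^ 2) ^ 2) ^ 2 := by ring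
      rw [e1, e2, e2, e2]
      ring
    calc tt ^ 8 = (uu + uu ^ 4) ^ 8 := by rw [← hsum]
      _ = uu ^ 8 + uu ^ 32 := by rw [e8]; ring
  obtain ⟨ρ, hρ⟩ : ∃ ρ, ρ = r + tt * uu ^ 8 := ⟨_, rfl⟩
  have hρ4 : ρ ^ 4 = tt ^ 3 * ρ := by
    have e4 : ρ ^ 4 = r ^ 4 + tt ^ 4 * uu ^ 32 := by
      rw [hρ]
      linear_combination (2 * r ^ 3 * (tt * uu ^ 8) + 3 * r ^ 2 * (tt * uu ^ 8) ^ 2 +
        2 * r * (tt * uu ^ 8) ^ 3) * h2
    rw [e4, hρ]
    linear_combination hr4 - tt ^ 4 * h8 + (- tt ^ 4 * uu ^ 8) * h2 + (0 : FF) * h2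
  have hX : ∀ f : FF, coeff 0 f = 0 → X ∣ f := by
    intro f hf
    rw [X_dvd_iff]
    simpa using hf
  have hc0t : coeff 0 tt = 0 := by
    rw [hTGR.1 0, if_neg]
    rintro ⟨u, hu6, hu⟩
    have : u = 0 := by
      have h3 : u ^ 2 = 0 := hu.symm
      exact pow_eq_zero_iff (by norm_num) |>.1 h3
    rw [this] at hu6
    norm_num at hu6
  have hc0u : coeff 0 uu = 0 := by
    unfold uu
    rw [coeff_mk, if_neg]
    rintro ⟨u, hu3, hu⟩
    have : u = 0 := by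
      have h3 : u ^ 2 = 0 := hu.symm
      exact pow_eq_zero_iff (by norm_num) |>.1 h3
    rw [this] at hu3
    exact hu3 (dvd_zero 3)
  have hc0D : coeff 0 DD = 0 := by
    rw [hTGR.2.1 0, if_neg]
    rintro ⟨u, hu6, hu⟩
    have : u = 0 := by
      have h3 : u ^ 2 = 0 := hu.symm
      exact pow_eq_zero_iff (by norm_num) |>.1 h3
    rw [this] at hu6
    norm_num at hu6
  have hXr : X ^ 2 ∣ r := by
    rw [X_pow_dvd_iff]
    intro m hm
    rw [hr]
    unfold ex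
    rw [coeff_mk]
    split_ifs with h9
    · have : m = 0 := by omega
      rw [this]
      exact hc0D
    · rfl
  have hXt : X ^ 2 ∣ tt * uu ^ 8 := by
    have h1 := hX tt hc0t
    have h3 : X ∣ uu ^ 8 := dvd_pow (hX uu hc0u) (by norm_num)
    rw [pow_two]
    exact mul_dvd_mul h1 h3
  have hXρ : X ^ 2 ∣ ρ := by rw [hρ]; exact dvd_add hXr hXt
  have hρ0 : ρ = 0 := by
    by_contra hne
    have h3 : ρ ^ 3 = tt ^ 3 := by
      have e1 : ρ * ρ ^ 3 = ρ * tt ^ 3 := by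
        rw [mul_comm ρ (tt ^ 3), ← hρ4]; ring
      exact mul_left_cancel₀ hne e1
    have h5 : coeff 3 (tt ^ 3) = 1 := by
      rw [← hTGR.2.2.1]
      unfold ex
      rw [coeff_mk, if_pos (dvd_refl 3)]
      have : 3 / 3 = 1 := by norm_num
      rw [this, hTGR.2.1 1, if_pos ⟨1, by norm_num, by norm_num⟩]
    have h6 : coeff 3 (ρ ^ 3) = 0 := by
      have h7 : (X ^ 2) ^ 3 ∣ ρ ^ 3 := pow_dvd_pow_of_dvd hXρ 3
      rw [← pow_mul, X_pow_dvd_iff] at h7
      exact h7 3 (by norm_num)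
    rw [h3, h5] at h6
    exact one_ne_zero h6
  have hrr : r = tt * uu ^ 8 := by
    rw [hρ] at hρ0
    linear_combination hρ0 - (tt * uu ^ 8) * h2
  refine ⟨hsum, ?_, ?_⟩
  · rw [← hr]; exact hrr
  · rw [← hrr]; exact hD

end Pool.Agent.LQ
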